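import Pool.Agent.Zk51.RG.More
import Pool.Agent.N64.AF.M5

/-!
# Families of cycle class maps on the powers of a variety: definitions
-/

set_option autoImplicit false

open CategoryTheory Limits MonoidalCategory Module Filter Topology
open Pool.Agent.Y112.SR Pool.Agent.Y112.KD Pool.Agent.N64.AF Pool.Agent.Zk51.RG
open scoped ENNReal

namespace Pool.Agent.Zk51.CM

universe v u w t x

section Data

variable (Λ : Type t) [Field Λ] (C : Type u) [Category.{v} C] [Preadditive C] [Linear Λ C]

/-- Cycle class maps `c : src → tgt` between two additive functors on the category `C` of the smooth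
projective varieties with correspondences as morphisms; the values are graded by the integers. -/
structure CycleMaps where
  /-- groups of cycles -/
  src : AddFun.{v, u, t, x} Λ C
  /-- groups of cohomology or homology classes -/
  tgt : AddFun.{v, u, t, x} Λ C
  /-- the groups of the cycles of degree `j` -/
  A : ∀ Z : C, ℤ → src.Sub Z
  /-- the groups of the classes of degree `j` -/
  B : ∀ Z : C, ℤ → tgt.Sub Z
  /-- the cycle class maps -/
  c : ∀ Z : C, src.Grp Z →ₗ[Λ] tgt.Grp Z

variable {Λ C}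

/-- The group is the direct sum of the subgroups `P j`. -/
def IsDirectSum {V : Type x} [AddCommGroup V] [Module Λ V] (P : ℤ → Submodule Λ V) : Prop :=
  iSupIndep P ∧ ⨆ j, P j = ⊤

namespace CycleMaps

variable (D : CycleMaps.{v, u, t, x} Λ C)

/-- The groups are graded, and the cycle class maps preserve the degree. -/
structure IsGraded (Z : C) : Prop where
  src : IsDirectSum (D.A Z)
  tgt : IsDirectSum (D.B Z)
  map : ∀ j, (D.A Z j).map (D.c Z) ≤ D.B Z j

/-- Cycle class maps are compatible with correspondences. -/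
def Natural : Prop := ∀ (Y Z : C) (f : Y ⟶ Z), D.c Z ∘ₗ D.src.act f = D.tgt.act f ∘ₗ D.c Y

/-- The known properties of cycle class maps. -/
structure IsCycleMaps : Prop where
  graded : ∀ Z : C, D.IsGraded Z
  nat : D.Natural

/-- The cycle class map of `Z` is onto in degree `j`, for all `j`. -/
def Onto (Z : C) : Prop := ∀ j, (D.A Z j).map (D.c Z) = D.B Z j

/-- The cycle class map of `Z` is injective in degree `j`, for all `j`. -/
def Inj (Z : C) : Prop := ∀ j, ∀ x ∈ D.A Z j, D.c Z x = 0 → x = 0

/-- The number of linearly independent classes of all degrees. -/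
noncomputable def allD (Z : C) : ℕ∞ := dimE Λ (D.tgt.Grp Z)

/-- The number of linearly independent classes of cycles of all degrees. -/
noncomputable def algD (Z : C) : ℕ∞ := dimE Λ (LinearMap.range (D.c Z))

/-- The number of linearly independent classes of all degrees modulo the classes of cycles. -/
noncomputable def cokD (Z : C) : ℕ∞ := dimE Λ (D.tgt.Grp Z ⧸ LinearMap.range (D.c Z))

/-- The dimension of the space of cycles of all degrees with class zero. -/
noncomputable def kerD (Z : C) : ℕ∞ := dimE Λ (LinearMap.ker (D.c Z))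

/-- Compatible maps between the groups of cycles and between the groups of classes: push-forwards
along proper maps, restrictions to open parts. -/
structure Maps (D' D : CycleMaps.{v, u, t, x} Λ C) where
  s : ∀ Z : C, D'.src.Grp Z →ₗ[Λ] D.src.Grp Z
  t : ∀ Z : C, D'.tgt.Grp Z →ₗ[Λ] D.tgt.Grp Z
  comm : ∀ Z, D.c Z ∘ₗ s Z = t Z ∘ₗ D'.c Z

/-- The map between the groups of classes is onto. -/
def Maps.IsOnto {D' D : CycleMaps.{v, u, t, x} Λ C} (f : Maps D' D) : Prop :=
  ∀ Z, Function.Surjective (f.t Z)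

/-- The localisation sequences: restrictions are onto, and a class with restriction zero comes from
the closed part. -/
structure IsLocalisation {D₁ D D₂ : CycleMaps.{v, u, t, x} Λ C} (i : Maps D₁ D) (r : Maps D D₂) :
    Prop where
  src : ∀ Z, Function.Surjective (r.s Z)
  tgt : r.IsOnto
  exact : ∀ Z, LinearMap.ker (r.t Z) ≤ LinearMap.range (i.t Z)

end CycleMaps

end Data

variable {C : Type u} [Category.{v} C] [Preadditive C] [MonoidalCategory C]
  [MonoidalPreadditive C] [SymmetricCategory C] [RightRigidCategory C]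
  {Λ : Type t} [Field Λ] [CharZero Λ] [Linear Λ C] [MonoidalLinear Λ C]
  {K : Type w} [Field K] [IsAlgClosed K] [Algebra Λ K]

namespace CycleMaps

variable (D : CycleMaps.{v, u, t, x} Λ C)

/-- Compositions of `k` numerically trivial correspondences between powers of `T` map all classes to
classes of cycles. -/
def KilledCok (T : C) (k : ℕ) : Prop :=
  ∀ (a b : ℕ) (f : tp T a ⟶ tp T b), NumPow T k f →
    LinearMap.range (D.tgt.act f) ≤ LinearMap.range (D.c (tp T b))

/-- Compositions of `k` numerically trivial correspondences between powers of `T` act as zero on the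
cycles with class zero. -/
def KilledKer (T : C) (k : ℕ) : Prop :=
  ∀ (a b : ℕ) (f : tp T a ⟶ tp T b), NumPow T k f →
    ∀ x, D.c (tp T a) x = 0 → D.src.act f x = 0

/-- The subspace generated by the images of the `z i` under correspondences. -/
def gens {m l : ℕ} (T : C) (z : Fin l → D.tgt.Grp (tp T m)) (n : ℕ) : D.tgt.Sub (tp T n) :=
  Submodule.span Λ {y | ∃ (i : Fin l) (c : tp T m ⟶ tp T n), D.tgt.act c (z i) = y}

/-- All classes on all powers of `T` are generated by at most `k` classes on one of the powers and by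
the classes of cycles. -/
def Generated (T : C) (k : ℕ) : Prop :=
  ∃ (m l : ℕ) (z : Fin l → D.tgt.Grp (tp T m)), l ≤ k ∧
    ∀ n, LinearMap.range (D.c (tp T n)) ⊔ D.gens T z n = ⊤

/-- The law for the cokernels. -/
def CokLaw (R : SuperRealisation C K) (T : C) (N : ℕ∞) : Prop :=
  RatioTo Λ T (fun n => D.cokD (tp T n)) N ∧
    (N = 0 ↔ ∀ n, D.Onto (tp T n)) ∧
    (∀ k : ℕ, N = k → IsMotivic Λ R T k (fun n => D.cokD (tp T n)) ∧ D.KilledCok T k ∧
      D.Generated T k) ∧
    ((∀ n, SumOf D.Onto (tp T n)) → N = 0 ∨ N = ⊤)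

/-- The law for the kernels. -/
def KerLaw (R : SuperRealisation C K) (T : C) (N : ℕ∞) : Prop :=
  RatioTo Λ T (fun n => D.kerD (tp T n)) N ∧
    (N = 0 ↔ ∀ n, D.Inj (tp T n)) ∧
    (∀ k : ℕ, N = k → IsMotivic Λ R T k (fun n => D.kerD (tp T n)) ∧ D.KilledKer T k) ∧
    ((∀ n, SumOf D.Inj (tp T n)) → N = 0 ∨ N = ⊤)

/-- The limits for the classes of cycles and for all classes. -/
def ShareLaw (T : C) (N N' : ℕ∞) : Prop :=
  RatioTo Λ T (fun n => D.algD (tp T n)) N' ∧ RatioTo Λ T (fun n => D.allD (tp T n)) (N' + N)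

/-- One inequality for one power of `T` is sufficient for the power with exponent `m`. -/
def Criterion (R : SuperRealisation C K) (T : C) : Prop :=
  ∀ m n : ℕ, 128 * (m + 1) ^ 2 * bt R T ^ (2 * m + 6) ≤ n →
    (2 * D.cokD (tp T n) < numRank Λ (tp T n) → D.Onto (tp T m)) ∧
      (2 * D.kerD (tp T n) < numRank Λ (tp T n) → D.Inj (tp T m))

/-- The laws for `S × X^n` and the inequalities between the limits for different `S`. -/
def Laws (R : SuperRealisation C K) (T : C) (N : CycleMaps.{v, u, t, x} Λ C → ℕ∞) : Prop :=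
  (∀ D : CycleMaps.{v, u, t, x} Λ C, D.IsCycleMaps →
    D.CokLaw R T (N D) ∧ (∃ N' : ℕ∞, D.ShareLaw T (N D) N') ∧ ∃ N'' : ℕ∞, D.KerLaw R T N'') ∧
  (∀ D' D : CycleMaps.{v, u, t, x} Λ C, D'.IsCycleMaps → D.IsCycleMaps → ∀ f : Maps D' D,
    f.IsOnto → N D ≤ N D') ∧
  ∀ D₁ D D₂ : CycleMaps.{v, u, t, x} Λ C, D₁.IsCycleMaps → D.IsCycleMaps → D₂.IsCycleMaps →
    ∀ (i : Maps D₁ D) (r : Maps D D₂), IsLocalisation i r → N D₂ ≤ N D ∧ N D ≤ N D₁ + N D₂

/-- The growth gap: if the cycle class map of `(T ⊗ T^∨)^m` is not onto (is not injective) then the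
cokernels (the kernels) for `(T ⊗ T^∨)^n` are very large for all large `n`. -/
def GrowthGap (R : SuperRealisation C K) (T : C) : Prop :=
  ∀ m n : ℕ, 128 * (m + 1) ^ 2 * bt R T ^ (4 * m + 12) ≤ n →
    (¬ D.Onto (tp (T ⊗ Tᘁ) m) → ((bt R T ^ (2 * n) : ℕ) : ℕ∞) ≤
      (2 * (n + 1) ^ (bt R T ^ 2) : ℕ) * D.cokD (tp (T ⊗ Tᘁ) n)) ∧
    (¬ D.Inj (tp (T ⊗ Tᘁ) m) → ((bt R T ^ (2 * n) : ℕ) : ℕ∞) ≤
      (2 * (n + 1) ^ (bt R T ^ 2) : ℕ) * D.kerD (tp (T ⊗ Tᘁ) n))

end CycleMaps

end Pool.Agent.Zk51.CM
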