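import Pool.Agent.Zk51.CM.Defs
import Pool.Agent.Zk51.RG.Main

/-!
# The laws for the kernels and the cokernels of cycle class maps
-/

set_option autoImplicit false
set_option linter.unusedSectionVars false

open CategoryTheory Limits MonoidalCategory Module Filter Topology
open Pool.Agent.Y112.SR Pool.Agent.Y112.KD Pool.Agent.N64.AF Pool.Agent.Zk51.RG
open scoped ENNReal

namespace Pool.Agent.Zk51.CM

universe v u w t x y

section Grade

variable {Λ : Type t} [Field Λ] {V : Type x} [AddCommGroup V] [Module Λ V]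
  {W : Type x} [AddCommGroup W] [Module Λ W]

/-- The decomposition of an element. -/
lemma exists_dec {A : ℤ → Submodule Λ V} (hA : ⨆ j, A j = ⊤) (x : V) :
    ∃ f : ℤ →₀ V, (∀ j, f j ∈ A j) ∧ ∑ j ∈ f.support, f j = x := by
  have hx : x ∈ ⨆ j, A j := by rw [hA]; exact Submodule.mem_top
  obtain ⟨f, h1, h2⟩ := (Submodule.mem_iSup_iff_exists_finsupp _ _).1 hx
  exact ⟨f, h1, h2⟩

lemma indep_zero {B : ℤ → Submodule Λ W} (hB : iSupIndep B) (s : Finset ℤ) (v : ℤ → W)
    (hv : ∀ j ∈ s, v j ∈ B j) (h0 : ∑ j ∈ s, v j = 0) : ∀ j ∈ s, v j = 0 :=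
  (iSupIndep_iff_finsetSum_eq_zero_imp_eq_zero _).1 hB s v hv h0

variable {A : ℤ → Submodule Λ V} {B : ℤ → Submodule Λ W} {c : V →ₗ[Λ] W}

lemma inj_iff (hA : ⨆ j, A j = ⊤) (hB : iSupIndep B) (hc : ∀ j, (A j).map c ≤ B j) :
    LinearMap.ker c = ⊥ ↔ ∀ j, ∀ x ∈ A j, c x = 0 → x = 0 := by
  constructor
  · intro h j x _ hx
    have h1 : x ∈ LinearMap.ker c := hx
    rw [h] at h1
    exact h1
  · intro h
    rw [eq_bot_iff]
    intro x hx
    obtain ⟨f, h1, h2⟩ := exists_dec hA x
    have h3 : ∑ j ∈ f.support, c (f j) = 0 := by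
      rw [← map_sum, h2]
      exact hx
    have h4 := indep_zero hB f.support (fun j => c (f j)) (fun j _ => hc j ⟨_, h1 j, rfl⟩) h3
    change x = 0
    rw [← h2]
    exact Finset.sum_eq_zero fun j hj => h j _ (h1 j) (h4 j hj)

lemma onto_iff (hA : ⨆ j, A j = ⊤) (hB : iSupIndep B) (hB' : ⨆ j, B j = ⊤)
    (hc : ∀ j, (A j).map c ≤ B j) :
    LinearMap.range c = ⊤ ↔ ∀ j, (A j).map c = B j := by
  classical
  constructor
  · intro h j
    refine le_antisymm (hc j) fun y hy => ?_
    have hy' : y ∈ LinearMap.range c := by rw [h]; exact Submodule.mem_top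
    obtain ⟨x, rfl⟩ := hy'
    obtain ⟨f, h1, h2⟩ := exists_dec hA x
    refine ⟨f j, h1 j, ?_⟩
    let v : ℤ → W := fun p => c (f p) - if p = j then c x else 0
    have h3 : ∑ p ∈ insert j f.support, v p = 0 := by
      have e1 : ∑ p ∈ insert j f.support, c (f p) = c x := by
        rw [← h2, map_sum]
        refine (Finset.sum_subset (Finset.subset_insert _ _) ?_).symm
        intro p _ hp
        rw [Finsupp.notMem_support_iff.1 hp, map_zero]
      have e2 : ∑ p ∈ insert j f.support, (if p = j then c x else 0) = c x := by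
        rw [Finset.sum_ite_eq' (insert j f.support) j (fun _ => c x)]
        simp
      change ∑ p ∈ insert j f.support, (c (f p) - if p = j then c x else 0) = 0
      rw [Finset.sum_sub_distrib, e1, e2, sub_self]
    have h4 := indep_zero hB (insert j f.support) v (fun p _ => by
      refine Submodule.sub_mem _ (hc p ⟨_, h1 p, rfl⟩) ?_
      split_ifs with hp
      · subst hp
        exact hy
      · exact Submodule.zero_mem _) h3 j (Finset.mem_insert_self _ _)
    have h5 : c (f j) - c x = 0 := by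
      have e : v j = c (f j) - c x := by
        change (c (f j) - if j = j then c x else 0) = _
        rw [if_pos rfl]
      rw [← e]
      exact h4
    exact sub_eq_zero.1 h5
  · intro h
    rw [LinearMap.range_eq_map, ← hA, Submodule.map_iSup, ← hB']
    exact iSup_congr h

end Grade

section

variable {C : Type u} [Category.{v} C] [Preadditive C] [MonoidalCategory C]
  [MonoidalPreadditive C] [SymmetricCategory C] [RightRigidCategory C]
  {Λ : Type t} [Field Λ] [CharZero Λ] [Linear Λ C] [MonoidalLinear Λ C]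
  {K : Type w} [Field K] [IsAlgClosed K] [Algebra Λ K] {R : SuperRealisation C K}

namespace CycleMaps

variable {D : CycleMaps.{v, u, t, x} Λ C}

namespace IsCycleMaps

lemma nat_apply (hD : D.IsCycleMaps) {Y Z : C} (f : Y ⟶ Z) (x : D.src.Grp Y) :
    D.c Z (D.src.act f x) = D.tgt.act f (D.c Y x) :=
  congrArg (fun q : D.src.Grp Y →ₗ[Λ] D.tgt.Grp Z => q x) (hD.nat Y Z f)

lemma ker_stab (hD : D.IsCycleMaps) :
    IsStab D.src.F (fun Z => (LinearMap.ker (D.c Z) : Submodule Λ (D.src.F.obj Z))) := by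
  intro Y Z f a ha
  have h3 := hD.nat_apply f a
  have h4 : D.c Y a = 0 := ha
  change D.c Z (D.src.act f a) = 0
  rw [h3, h4, map_zero]

lemma range_stab (hD : D.IsCycleMaps) :
    IsStab D.tgt.F (fun Z => (LinearMap.range (D.c Z) : Submodule Λ (D.tgt.F.obj Z))) := by
  rintro Y Z f _ ⟨a, rfl⟩
  exact ⟨D.src.act f a, hD.nat_apply f a⟩

/-- The functor of the kernels. -/
abbrev kerF (hD : D.IsCycleMaps) : C ⥤ ModuleCat.{x} Λ := sub D.src.F _ hD.ker_stab

/-- The functor of the images. -/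
abbrev algF (hD : D.IsCycleMaps) : C ⥤ ModuleCat.{x} Λ := sub D.tgt.F _ hD.range_stab

/-- The functor of the cokernels. -/
abbrev cokF (hD : D.IsCycleMaps) : C ⥤ ModuleCat.{x} Λ :=
  quoS D.tgt.F (fun Z => (LinearMap.range (D.c Z) : Submodule Λ (D.tgt.F.obj Z))) hD.range_stab

lemma ker_iff (hD : D.IsCycleMaps) (Z : C) : Subsingleton ((hD.kerF).obj Z) ↔ D.Inj Z := by
  have h := hD.graded Z
  refine (Submodule.subsingleton_iff_eq_bot (p := LinearMap.ker (D.c Z))).trans ?_
  exact inj_iff h.src.2 h.tgt.1 h.map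

lemma cok_iff (hD : D.IsCycleMaps) (Z : C) : Subsingleton ((hD.cokF).obj Z) ↔ D.Onto Z := by
  have h := hD.graded Z
  refine (Submodule.Quotient.subsingleton_iff (p := LinearMap.range (D.c Z))).trans ?_
  exact onto_iff h.src.2 h.tgt.1 h.tgt.2 h.map

lemma allD_eq (Z : C) : D.allD Z = D.algD Z + D.cokD Z := by
  unfold allD algD cokD dimE
  rw [← map_add, add_comm, Submodule.rank_quotient_add_rank]

/-- **The law for the cokernels.** -/
theorem cokLaw {T : C} [ExactPairing T T] (h : IsPow Λ R T) (hD : D.IsCycleMaps) :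
    ∃ N : ℕ∞, D.CokLaw R T N := by
  obtain ⟨N, h1, h2, h3, h4⟩ := full_law h hD.cokF
  obtain ⟨N', a1, -, a3⟩ := law h hD.cokF
  have hN : N' = N := by
    have h5 := tendsto_nhds_unique a1 h1
    exact_mod_cast h5
  refine ⟨N, h1, h2.trans (forall_congr' fun n => hD.cok_iff _), ?_, ?_⟩
  · intro k hk
    obtain ⟨h5, h6⟩ := h3 k hk
    refine ⟨h5, ?_, ?_⟩
    · rintro a b f hf _ ⟨y, rfl⟩
      have h7 := congrArg (fun q : (hD.cokF).obj (tp T a) ⟶ (hD.cokF).obj (tp T b) =>
        (q.hom (Submodule.Quotient.mk y))) (h6 a b f hf)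
      have h8 : (Submodule.Quotient.mk (D.tgt.act f y) :
          D.tgt.Grp (tp T b) ⧸ LinearMap.range (D.c (tp T b))) = 0 := h7
      rw [Submodule.Quotient.mk_eq_zero] at h8
      exact h8
    · obtain ⟨-, m, l, z, hl, hz⟩ := a3 (by rw [hN, hk]; exact ENat.natCast_ne_top k)
      have hsurj := Submodule.mkQ_surjective (LinearMap.range (D.c (tp T m)))
      choose z' hz' using fun i => hsurj (z i)
      refine ⟨m, l, z', ?_, ?_⟩
      · rw [hN, hk] at hl
        exact_mod_cast hl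
      · intro n
        rw [eq_top_iff]
        intro y _
        set W : Submodule Λ (D.tgt.Grp (tp T n)) :=
          LinearMap.range (D.c (tp T n)) ⊔ D.gens T z' n with hW
        have h7 := hz n (Submodule.Quotient.mk y)
        let Q : Submodule Λ (D.tgt.Grp (tp T n)) := LinearMap.range (D.c (tp T n))
        let W' : Submodule Λ ((hD.cokF).obj (tp T n)) := W.map Q.mkQ
        have h8 : Submodule.span Λ {y : (hD.cokF).obj (tp T n) | ∃ (i : Fin l)
            (c : tp T m ⟶ tp T n), ((hD.cokF).map c).hom (z i) = y} ≤ W' := by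
          refine Submodule.span_le.2 ?_
          rintro _ ⟨i, c, rfl⟩
          refine ⟨D.tgt.act c (z' i), ?_, ?_⟩
          · exact (le_sup_right : _ ≤ W) (Submodule.subset_span ⟨i, c, rfl⟩)
          · rw [← hz' i]
            rfl
        obtain ⟨w, hwW, hwy⟩ := h8 h7
        have h9 : w - y ∈ Q := (Submodule.Quotient.eq Q).1 hwy
        have h11 : w ∈ W := hwW
        have h12 : y = w - (w - y) := by abel
        rw [h12]
        exact Submodule.sub_mem _ h11 ((le_sup_left : _ ≤ W) h9)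
  · intro hs
    by_cases hN : N = ⊤
    · exact Or.inr hN
    · left
      rw [h2]
      intro n
      refine zero_of_sumOf (hD.cokF) ?_ (h4 hN n)
      obtain ⟨s, Z, α, β, hZ, hn⟩ := hs n
      exact ⟨s, Z, α, β, fun j => (hD.cok_iff _).2 (hZ j), hn⟩

/-- **The law for the kernels.** -/
theorem kerLaw {T : C} [ExactPairing T T] (h : IsPow Λ R T) (hD : D.IsCycleMaps) :
    ∃ N : ℕ∞, D.KerLaw R T N := by
  obtain ⟨N, h1, h2, h3, h4⟩ := full_law h hD.kerF
  refine ⟨N, h1, h2.trans (forall_congr' fun n => hD.ker_iff _), ?_, ?_⟩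
  · intro k hk
    obtain ⟨h5, h6⟩ := h3 k hk
    refine ⟨h5, fun a b f hf y hy => ?_⟩
    have h7 := congrArg (fun q : (hD.kerF).obj (tp T a) ⟶ (hD.kerF).obj (tp T b) =>
      (q.hom ⟨y, hy⟩ : LinearMap.ker (D.c (tp T b))).1) (h6 a b f hf)
    exact h7
  · intro hs
    by_cases hN : N = ⊤
    · exact Or.inr hN
    · left
      rw [h2]
      intro n
      refine zero_of_sumOf (hD.kerF) ?_ (h4 hN n)
      obtain ⟨s, Z, α, β, hZ, hn⟩ := hs n
      exact ⟨s, Z, α, β, fun j => (hD.ker_iff _).2 (hZ j), hn⟩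

/-- **The share of the classes of cycles.** -/
theorem shareLaw {T : C} [ExactPairing T T] (h : IsPow Λ R T) (hD : D.IsCycleMaps) {N : ℕ∞}
    (hN : D.CokLaw R T N) : ∃ N' : ℕ∞, D.ShareLaw T N N' := by
  obtain ⟨N', h1, -⟩ := full_law h hD.algF
  refine ⟨N', h1, ?_⟩
  have e : (fun n => D.allD (tp T n)) = fun n => D.algD (tp T n) + D.cokD (tp T n) := by
    funext n
    exact allD_eq _
  rw [e]
  exact ratio_add h1 hN.1

/-- **The explicit criterion.** -/
theorem criterion {T : C} [ExactPairing T T] (h : IsPow Λ R T) (hD : D.IsCycleMaps) :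
    D.Criterion R T := by
  intro m n hn
  constructor
  · intro hlt
    obtain ⟨h2, h3⟩ := dimE_lt hlt
    exact (hD.cok_iff _).1 (explicit_criterion h hD.cokF hn h2 h3)
  · intro hlt
    obtain ⟨h2, h3⟩ := dimE_lt hlt
    exact (hD.ker_iff _).1 (explicit_criterion h hD.kerF hn h2 h3)

/-- **The growth gap.** -/
theorem gap (hR : IsReal Λ R) {T : C} (hT : R.CPlus T) (hb : 0 < bt R T)
    (hD : D.IsCycleMaps) : D.GrowthGap R T := by
  intro m n hn
  refine ⟨fun hm => growth_gap hR hT hb hD.cokF hn ?_, fun hm => growth_gap hR hT hb hD.kerF hn ?_⟩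
  · rw [hD.cok_iff]
    exact hm
  · rw [hD.ker_iff]
    exact hm

end IsCycleMaps

section Compare

variable {D₁ D₂ : CycleMaps.{v, u, t, x} Λ C} {T : C}

/-- The limits are monotone. -/
lemma ratio_mono {a b : ℕ → ℕ∞} {N M : ℕ∞} (ha : RatioTo Λ T a N) (hb : RatioTo Λ T b M)
    (hab : ∀ n, a n ≤ b n) : N ≤ M := by
  have h : (N : ℝ≥0∞) ≤ M := by
    refine le_of_tendsto_of_tendsto' ha hb fun n => ?_
    exact ENNReal.div_le_div_right (by exact_mod_cast hab n) _
  exact_mod_cast h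

lemma dimE_le_of_surjective {V W : Type x} [AddCommGroup V] [Module Λ V] [AddCommGroup W]
    [Module Λ W] (f : V →ₗ[Λ] W) (hf : Function.Surjective f) : dimE Λ W ≤ dimE Λ V := by
  unfold dimE
  exact OrderHomClass.mono _ (LinearMap.rank_le_of_surjective f hf)

lemma comm_apply {D' : CycleMaps.{v, u, t, x} Λ C} (f : Maps D' D) (Z : C) (a : D'.src.Grp Z) :
    D.c Z (f.s Z a) = f.t Z (D'.c Z a) :=
  congrArg (fun q : D'.src.Grp Z →ₗ[Λ] D.tgt.Grp Z => q a) (f.comm Z)

lemma range_le {D' : CycleMaps.{v, u, t, x} Λ C} (f : Maps D' D) (Z : C) :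
    LinearMap.range (D'.c Z) ≤ (LinearMap.range (D.c Z)).comap (f.t Z) := by
  rintro _ ⟨a, rfl⟩
  exact ⟨f.s Z a, comm_apply f Z a⟩

/-- The map between the cokernels. -/
abbrev cokMap {D' : CycleMaps.{v, u, t, x} Λ C} (f : Maps D' D) (Z : C) :
    (D'.tgt.Grp Z ⧸ LinearMap.range (D'.c Z)) →ₗ[Λ] (D.tgt.Grp Z ⧸ LinearMap.range (D.c Z)) :=
  Submodule.mapQ _ _ (f.t Z) (range_le f Z)

lemma cokMap_surjective {D' : CycleMaps.{v, u, t, x} Λ C} (f : Maps D' D) (hf : f.IsOnto) (Z : C) :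
    Function.Surjective (cokMap f Z) := by
  intro y
  obtain ⟨y, rfl⟩ := Submodule.mkQ_surjective _ y
  obtain ⟨a, rfl⟩ := hf Z y
  exact ⟨Submodule.Quotient.mk a, rfl⟩

lemma cokD_le {D' : CycleMaps.{v, u, t, x} Λ C} (f : Maps D' D) (hf : f.IsOnto) (Z : C) :
    D.cokD Z ≤ D'.cokD Z :=
  dimE_le_of_surjective _ (cokMap_surjective f hf Z)

lemma cokD_le_add (i : Maps D₁ D) (r : Maps D D₂) (h : IsLocalisation i r) (Z : C) :
    D.cokD Z ≤ D₁.cokD Z + D₂.cokD Z := by
  let g := cokMap r Z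
  let f := cokMap i Z
  have h1 : LinearMap.ker g ≤ LinearMap.range f := by
    intro y hy
    obtain ⟨y, rfl⟩ := Submodule.mkQ_surjective _ y
    have h2 : (Submodule.Quotient.mk (r.t Z y) : D₂.tgt.Grp Z ⧸ LinearMap.range (D₂.c Z)) = 0 := hy
    rw [Submodule.Quotient.mk_eq_zero] at h2
    obtain ⟨a, ha⟩ := h2
    obtain ⟨b, rfl⟩ := h.src Z a
    have h3 : y - D.c Z b ∈ LinearMap.ker (r.t Z) := by
      rw [LinearMap.mem_ker, map_sub, ← comm_apply r Z b, ha, sub_self]
    obtain ⟨w, hw⟩ := h.exact Z h3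
    refine ⟨Submodule.Quotient.mk w, ?_⟩
    change (Submodule.Quotient.mk (i.t Z w) : D.tgt.Grp Z ⧸ LinearMap.range (D.c Z)) =
      Submodule.Quotient.mk y
    rw [Submodule.Quotient.eq, hw]
    refine ⟨-b, ?_⟩
    rw [map_neg]
    abel
  have h4 : dimE Λ (LinearMap.ker g) ≤ D₁.cokD Z := by
    have h5 : dimE Λ (LinearMap.range f) ≤ D₁.cokD Z :=
      dimE_le_of_surjective f.rangeRestrict f.surjective_rangeRestrict
    refine le_trans ?_ h5
    unfold dimE
    exact OrderHomClass.mono _ (Submodule.rank_mono h1)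
  have h6 : D.cokD Z = dimE Λ (LinearMap.range g) + dimE Λ (LinearMap.ker g) := by
    unfold cokD dimE
    rw [← map_add, LinearMap.rank_range_add_rank_ker]
  have h7 : dimE Λ (LinearMap.range g) ≤ D₂.cokD Z := by
    unfold cokD dimE
    exact OrderHomClass.mono _ (Submodule.rank_le _)
  rw [h6, add_comm]
  exact add_le_add h4 h7

end Compare

/-- **The laws.** -/
theorem laws {T : C} [ExactPairing T T] (h : IsPow Λ R T) :
    ∃ N : CycleMaps.{v, u, t, x} Λ C → ℕ∞, Laws R T N := by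
  classical
  have hex : ∀ D : CycleMaps.{v, u, t, x} Λ C, ∃ N : ℕ∞, D.IsCycleMaps → D.CokLaw R T N := by
    intro D
    by_cases hD : D.IsCycleMaps
    · obtain ⟨N, hN⟩ := hD.cokLaw h
      exact ⟨N, fun _ => hN⟩
    · exact ⟨0, fun h => absurd h hD⟩
  choose N hN using hex
  refine ⟨N, fun D hD => ⟨hN D hD, hD.shareLaw h (hN D hD), hD.kerLaw h⟩, ?_, ?_⟩
  · intro D' D hD' hD f hf
    exact ratio_mono (hN D hD).1 (hN D' hD').1 fun n => cokD_le f hf _
  · intro D₁ D D₂ hD₁ hD hD₂ i r hir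
    refine ⟨ratio_mono (hN D₂ hD₂).1 (hN D hD).1 fun n => cokD_le r hir.tgt _, ?_⟩
    exact ratio_mono (hN D hD).1 (ratio_add (hN D₁ hD₁).1 (hN D₂ hD₂).1)
      fun n => cokD_le_add i r hir _

end CycleMaps

end

end Pool.Agent.Zk51.CM
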